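import Pool.Agent.H37.CND.Stmts

/-!
# Denominators of conductors: row LO2
-/

set_option autoImplicit false

namespace Pool.CND

/-- LO2 from EXP, ZPW and LON -/
theorem lo2_thm (hE : S_EXP) (hZ : S_ZPW) (hL : S_LON) : S_LO2 := by
  intro p k L _ _ _ P g u i hp hc hF hu0 hu hi hgu hord x hx
  have hgu0 : g u - u ≠ 0 := sub_ne_zero.2 hgu
  obtain ⟨a, ha0, ha⟩ := hE k L P u (g u - u) hu0 hu hgu0
  rw [hord] at ha
  have ha' : P.Ge (g u - u - algebraMap k L a * u ^ (i + 1)) (i + 2) :=
    P.ge_mono ha (by omega)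
  obtain ⟨c, hc0, hy⟩ := hE k L P u x hu0 hu hx
  obtain ⟨m, hm⟩ : ∃ m : ℤ, m = P.ord x := ⟨_, rfl⟩
  rw [← hm] at hy ⊢
  have hz := hZ k L P g u a i hF hu0 hu hi ha' m
  have hgy : P.Ge (g (x - algebraMap k L c * u ^ m) - (x - algebraMap k L c * u ^ m))
      (m + i + 1) := by
    by_cases hy0 : x - algebraMap k L c * u ^ m = 0
    · rw [hy0, map_zero, sub_zero]
      exact P.ge_zero _
    · rcases hL k L P g u i hF hu0 hu (by omega) (Or.inr (by rw [hord]))
        (x - algebraMap k L c * u ^ m) with h | h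
      · have h2 := (P.ge_iff hy0 _).1 hy
        exact P.ge_mono h (by omega)
      · exact absurd h hy0
  have hmain : P.Ge (g x - x - algebraMap k L (c * ((m : k) * a)) * u ^ (m + i)) (m + i + 1) := by
    have h1 := P.ge_mul (P.ge_const c) hz
    rw [zero_add] at h1
    have h2 := P.ge_add h1 hgy
    have h3 : algebraMap k L c * (g (u ^ m) - u ^ m - algebraMap k L ((m : k) * a) * u ^ (m + i)) +
        (g (x - algebraMap k L c * u ^ m) - (x - algebraMap k L c * u ^ m)) =
        g x - x - algebraMap k L (c * ((m : k) * a)) * u ^ (m + i) := by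
      rw [map_sub, map_mul g, AlgEquiv.commutes, map_mul (algebraMap k L) c]
      ring
    rw [h3] at h2
    exact h2
  constructor
  · intro hpm
    have hm0 : (m : k) ≠ 0 := fun h => hpm ((CharP.intCast_eq_zero_iff k p m).1 h)
    have hcm : c * ((m : k) * a) ≠ 0 := mul_ne_zero hc0 (mul_ne_zero hm0 ha0)
    have hcm' : algebraMap k L (c * ((m : k) * a)) ≠ 0 := by
      rw [Ne, map_eq_zero]
      exact hcm
    have hum : u ^ (m + i) ≠ 0 := zpow_ne_zero _ hu0
    have hz0 : algebraMap k L (c * ((m : k) * a)) * u ^ (m + i) ≠ 0 := mul_ne_zero hcm' hum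
    have hzo : P.ord (algebraMap k L (c * ((m : k) * a)) * u ^ (m + i)) = m + i := by
      rw [P.ord_mul _ _ hcm' hum, P.ord_const _ hcm, P.ord_zpow hu0, hu]
      ring
    have h4 := P.ord_add_of_lt (y := g x - x - algebraMap k L (c * ((m : k) * a)) * u ^ (m + i))
      hz0 (by rw [hzo]; exact hmain)
    rw [add_sub_cancel, hzo] at h4
    exact ⟨fun h => h4.1 (by rw [h, sub_self]), h4.2⟩
  · intro hpm
    have hm0 : (m : k) = 0 := (CharP.intCast_eq_zero_iff k p m).2 hpm
    rw [hm0, zero_mul, mul_zero, map_zero, zero_mul, sub_zero] at hmain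
    exact hmain

end Pool.CND
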