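import Pool.Agent.H37.CND.Stmts

/-!
# Denominators of conductors: row PTA
-/

set_option autoImplicit false

namespace Pool.CND

/-- PTA from UPA and NGD -/
theorem pta_thm (hU : S_UPA) (hN : S_NGD) : S_PTA := by
  intro p k G _ _ _ A d m hp hc hA hpm hcard
  have hm : 1 ≤ m := by
    rcases Nat.eq_zero_or_pos m with h | h
    · exact absurd (h ▸ dvd_zero p) hpm
    · exact h
  constructor
  · refine hN k G (p ^ d * m) ?_ fun c hcc => (hU p k G A d m hp hc hA hpm hcard c hcc).1
    exact Nat.one_le_iff_ne_zero.2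
      (mul_ne_zero (pow_ne_zero d hp.ne_zero) (Nat.one_le_iff_ne_zero.1 hm))
  · intro h2 hd
    refine hN k G (2 ^ (d - 1) * m) ?_ fun c hcc =>
      (hU p k G A d m hp hc hA hpm hcard c hcc).2 h2 hd
    exact Nat.one_le_iff_ne_zero.2
      (mul_ne_zero (pow_ne_zero (d - 1) two_ne_zero) (Nat.one_le_iff_ne_zero.1 hm))

end Pool.CND
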